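import Pool.Agent.Q100.PolyMain

/-!
# A polyhedral space `Y` and an element of `L₁([0,1], Y)` without optimal representation

The definitions are in `Pool/Agent/Q100/PolyDefs.lean`. The space `Y` is `c₀` with the norm
`‖x‖ = sup_n (|x_n| + ∑_{m<n} M_m |x_m|) / (ε_n + ∑_{m<n} M_m ε_m)`, `M_m = 2⁻ᵐ⁻²`, `ε_m = 2⁻ᵐ`.
-/

set_option autoImplicit false
open scoped ZeroAtInfty

namespace Pool.Agent.Results.MP_ace873_an.NotNormAttaining

open Q100.Poly MeasureTheory

/-- The negated form of Q1, for Lebesgue measure on `[0, 1]` and an equivalent norm on `c₀`. -/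
theorem result : ∃ (Y : Type) (_ : NormedAddCommGroup Y) (_ : NormedSpace ℝ Y),
    CompleteSpace Y ∧ Polyhedral Y ∧ Nonempty (Y ≃L[ℝ] C₀(ℕ, ℝ)) ∧
    ∃ f : ℝ → Y, Integrable f (volume.restrict (Set.Icc (0 : ℝ) 1)) ∧
      ¬ HasOptimalRepresentation (volume.restrict (Set.Icc (0 : ℝ) 1)) f :=
  ⟨X, inferInstance, inferInstance, inferInstance, polyhedral_X, ⟨Q100.Renorm.equivW EN⟩, fF,
    fF_integrable, no_optimal⟩

end Pool.Agent.Results.MP_ace873_an.NotNormAttaining
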